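import Mathlib

/-!
Complexity of beta-expansions in the field of a Salem number.
-/

set_option autoImplicit false

namespace Pool.Agent.Lib_helper77.SAL

open Polynomial IntermediateField

/-- the `n`-th digit of the beta-expansion of `x` (counted from `0`) -/
noncomputable def dig (β x : ℝ) (n : ℕ) : ℤ := ⌊β * (fun y : ℝ => Int.fract (β * y))^[n] x⌋

/-- the blocks of length `l` occurring in the beta-expansion of `x` -/
def blocks (β x : ℝ) (l : ℕ) : Set (Fin l → ℤ) :=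
  {w | ∃ n : ℕ, ∀ i : Fin l, w i = dig β x (n + i)}

theorem T_mem (β x : ℝ) (h0 : 0 ≤ x) (h1 : x < 1) (n : ℕ) :
    0 ≤ (fun y : ℝ => Int.fract (β * y))^[n] x ∧ (fun y : ℝ => Int.fract (β * y))^[n] x < 1 := by
  induction n with
  | zero => exact ⟨h0, h1⟩
  | succ n ih =>
    rw [Function.iterate_succ_apply']
    exact ⟨Int.fract_nonneg _, Int.fract_lt_one _⟩

theorem T_succ (β x : ℝ) (n : ℕ) : (fun y : ℝ => Int.fract (β * y))^[n + 1] x =
    β * (fun y : ℝ => Int.fract (β * y))^[n] x - dig β x n := by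
  rw [Function.iterate_succ_apply']
  rfl

theorem dig_bd (β x : ℝ) (hβ : 1 < β) (h0 : 0 ≤ x) (h1 : x < 1) (n : ℕ) :
    0 ≤ dig β x n ∧ (dig β x n : ℝ) ≤ β := by
  obtain ⟨a, b⟩ := T_mem β x h0 h1 n
  constructor
  · exact Int.floor_nonneg.2 (mul_nonneg (by linarith) a)
  · refine (Int.floor_le _).trans ?_
    nlinarith

theorem blocks_fin (β x : ℝ) (hβ : 1 < β) (h0 : 0 ≤ x) (h1 : x < 1) (l : ℕ) :
    (blocks β x l).Finite := by
  refine (Set.Finite.pi' (t := fun _ : Fin l => Set.Icc (0 : ℤ) ⌊β⌋)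
    (fun _ => Set.finite_Icc _ _)).subset ?_
  rintro w ⟨n, hn⟩ i
  obtain ⟨a, b⟩ := dig_bd β x hβ h0 h1 (n + i)
  rw [hn i]
  exact ⟨a, Int.le_floor.2 b⟩

theorem close (β x : ℝ) (hβ : 1 < β) (h0 : 0 ≤ x) (h1 : x < 1) (l m n : ℕ)
    (h : ∀ i < l, dig β x (m + i) = dig β x (n + i)) :
    |(fun y : ℝ => Int.fract (β * y))^[m] x - (fun y : ℝ => Int.fract (β * y))^[n] x| ≤
      (β ^ l)⁻¹ := by
  have key : ∀ j ≤ l, β ^ j * ((fun y : ℝ => Int.fract (β * y))^[m] x -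
      (fun y : ℝ => Int.fract (β * y))^[n] x) = (fun y : ℝ => Int.fract (β * y))^[m + j] x -
      (fun y : ℝ => Int.fract (β * y))^[n + j] x := by
    intro j hj
    induction j with
    | zero => simp
    | succ j ih =>
      rw [← add_assoc, ← add_assoc, T_succ, T_succ, h j (by omega), pow_succ, mul_right_comm,
        ih (by omega)]
      ring
  have h2 := key l le_rfl
  obtain ⟨a1, a2⟩ := T_mem β x h0 h1 (m + l)
  obtain ⟨b1, b2⟩ := T_mem β x h0 h1 (n + l)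
  have h3 : |β ^ l * ((fun y : ℝ => Int.fract (β * y))^[m] x -
      (fun y : ℝ => Int.fract (β * y))^[n] x)| ≤ 1 := by
    rw [h2, abs_le]; constructor <;> linarith
  have hp : 0 < β ^ l := by positivity
  rw [abs_mul, abs_of_pos hp] at h3
  rw [← one_div, le_div_iff₀ hp]
  linarith

section
variable {β : ℝ}

theorem root_of (hQ : IsIntegral ℚ β) (σ : (adjoin ℚ ({β} : Set ℝ)) →ₐ[ℚ] ℂ) :
    σ (AdjoinSimple.gen ℚ β) ∈ (minpoly ℚ β).aroots ℂ := by
  have h1 := algHomAdjoinIntegralEquiv_symm_apply_gen ℚ hQ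
    (algHomAdjoinIntegralEquiv ℚ hQ σ)
  have h2 := (congrArg (fun s : (adjoin ℚ ({β} : Set ℝ)) →ₐ[ℚ] ℂ => s (AdjoinSimple.gen ℚ β))
    (Equiv.symm_apply_apply (algHomAdjoinIntegralEquiv ℚ hQ) σ)).symm.trans h1
  change σ (AdjoinSimple.gen ℚ β) = _ at h2
  rw [h2]
  exact (algHomAdjoinIntegralEquiv ℚ hQ σ).2

theorem emb_inj (hQ : IsIntegral ℚ β) (σ τ : (adjoin ℚ ({β} : Set ℝ)) →ₐ[ℚ] ℂ)
    (h : σ (AdjoinSimple.gen ℚ β) = τ (AdjoinSimple.gen ℚ β)) : σ = τ := by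
  have h1 := (congrArg (fun s : (adjoin ℚ ({β} : Set ℝ)) →ₐ[ℚ] ℂ => s (AdjoinSimple.gen ℚ β))
    (Equiv.symm_apply_apply (algHomAdjoinIntegralEquiv ℚ hQ) σ)).symm.trans
    (algHomAdjoinIntegralEquiv_symm_apply_gen ℚ hQ (algHomAdjoinIntegralEquiv ℚ hQ σ))
  have h2 := (congrArg (fun s : (adjoin ℚ ({β} : Set ℝ)) →ₐ[ℚ] ℂ => s (AdjoinSimple.gen ℚ β))
    (Equiv.symm_apply_apply (algHomAdjoinIntegralEquiv ℚ hQ) τ)).symm.trans
    (algHomAdjoinIntegralEquiv_symm_apply_gen ℚ hQ (algHomAdjoinIntegralEquiv ℚ hQ τ))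
  change σ (AdjoinSimple.gen ℚ β) = _ at h1
  change τ (AdjoinSimple.gen ℚ β) = _ at h2
  apply (algHomAdjoinIntegralEquiv ℚ hQ).injective
  apply Subtype.ext
  rw [← h1, ← h2, h]

/-- the real embedding -/
noncomputable def emb0 (β : ℝ) : (adjoin ℚ ({β} : Set ℝ)) →ₐ[ℚ] ℂ :=
  (Complex.ofRealAm.restrictScalars ℚ).comp (adjoin ℚ ({β} : Set ℝ)).val

theorem emb0_apply (y : adjoin ℚ ({β} : Set ℝ)) : emb0 β y = ((y : ℝ) : ℂ) := rfl

theorem inv_root (hQ : IsIntegral ℚ β) (α : ℂ) (hα : α ∈ (minpoly ℚ β).aroots ℂ)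
    (hα1 : ‖α‖ = 1) : (β : ℂ)⁻¹ ∈ (minpoly ℚ β).aroots ℂ := by
  have hp0 : minpoly ℚ β ≠ 0 := minpoly.ne_zero hQ
  set φ := (algHomAdjoinIntegralEquiv ℚ hQ).symm ⟨α, hα⟩ with hφ
  have h1 : φ (AdjoinSimple.gen ℚ β) = α :=
    algHomAdjoinIntegralEquiv_symm_apply_gen ℚ hQ ⟨α, hα⟩
  have h2 : aeval α (minpoly ℚ β) = 0 := (mem_aroots.1 hα).2
  have h3 : (α)⁻¹ = (starRingEnd ℂ) α := by
    rw [Complex.inv_def, Complex.normSq_eq_norm_sq, hα1]
    simp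
  have h4 : aeval (α⁻¹) (minpoly ℚ β) = 0 := by
    rw [h3]
    have : aeval ((starRingEnd ℂ) α) (minpoly ℚ β) =
        (starRingEnd ℂ) (aeval α (minpoly ℚ β)) := by
      rw [aeval_def, aeval_def, hom_eval₂]
      congr 1
      ext r
      simp
    rw [this, h2, map_zero]
  have h5 : aeval ((AdjoinSimple.gen ℚ β)⁻¹) (minpoly ℚ β) = 0 := by
    apply φ.toRingHom.injective
    have : φ (aeval ((AdjoinSimple.gen ℚ β)⁻¹) (minpoly ℚ β)) =
        aeval (φ (AdjoinSimple.gen ℚ β)⁻¹) (minpoly ℚ β) := (aeval_algHom_apply φ _ _).symm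
    change φ _ = φ 0
    rw [this, map_inv₀, h1, h4, map_zero]
  rw [mem_aroots]
  refine ⟨hp0, ?_⟩
  have h6 : emb0 β ((AdjoinSimple.gen ℚ β)⁻¹) = (β : ℂ)⁻¹ := by
    rw [map_inv₀, emb0_apply]; rfl
  rw [← h6, aeval_algHom_apply, h5, map_zero]

end

/-- the orbit inside the field -/
noncomputable def orb (β x : ℝ) (hx : x ∈ adjoin ℚ ({β} : Set ℝ)) : ℕ → adjoin ℚ ({β} : Set ℝ)
  | 0 => ⟨x, hx⟩
  | n + 1 => AdjoinSimple.gen ℚ β * orb β x hx n - (dig β x n : ℤ)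

theorem orb_coe (β x : ℝ) (hx : x ∈ adjoin ℚ ({β} : Set ℝ)) (n : ℕ) :
    ((orb β x hx n : adjoin ℚ ({β} : Set ℝ)) : ℝ) = (fun y : ℝ => Int.fract (β * y))^[n] x := by
  induction n with
  | zero => rfl
  | succ n ih =>
    rw [T_succ, ← ih]
    simp [orb]

theorem orb_int (β x : ℝ) (hx : x ∈ adjoin ℚ ({β} : Set ℝ)) (hβ : IsIntegral ℤ β) (q : ℤ)
    (hq : IsIntegral ℤ (q • orb β x hx 0)) (n : ℕ) : IsIntegral ℤ (q • orb β x hx n) := by
  have hb : IsIntegral ℤ (AdjoinSimple.gen ℚ β) := by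
    rw [← isIntegral_algebraMap_iff (algebraMap (adjoin ℚ ({β} : Set ℝ)) ℝ).injective]
    exact hβ
  induction n with
  | zero => exact hq
  | succ n ih =>
    have e : q • orb β x hx (n + 1) = AdjoinSimple.gen ℚ β * (q • orb β x hx n) -
        ((q * dig β x n : ℤ) : adjoin ℚ ({β} : Set ℝ)) := by
      simp only [orb, zsmul_eq_mul]
      push_cast
      ring
    rw [e]
    exact (hb.mul ih).sub (by
      simpa using (isIntegral_algebraMap (R := ℤ) (A := adjoin ℚ ({β} : Set ℝ))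
        (x := q * dig β x n)))

theorem orb_bd (β x : ℝ) (hβ : 1 < β) (hx : x ∈ adjoin ℚ ({β} : Set ℝ)) (h0 : 0 ≤ x) (h1 : x < 1)
    (σ : (adjoin ℚ ({β} : Set ℝ)) →ₐ[ℚ] ℂ) (hσ : ‖σ (AdjoinSimple.gen ℚ β)‖ ≤ 1) (n : ℕ) :
    ‖σ (orb β x hx n)‖ ≤ ‖σ (orb β x hx 0)‖ + n * β := by
  induction n with
  | zero => simp
  | succ n ih =>
    have e : σ (orb β x hx (n + 1)) = σ (AdjoinSimple.gen ℚ β) * σ (orb β x hx n) -
        (dig β x n : ℂ) := by simp [orb]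
    obtain ⟨a, b⟩ := dig_bd β x hβ h0 h1 n
    have hd : ‖(dig β x n : ℂ)‖ ≤ β := by
      rw [Complex.norm_intCast, abs_of_nonneg (by exact_mod_cast a)]; exact b
    rw [e]
    refine (norm_sub_le _ _).trans ?_
    rw [norm_mul]
    push_cast
    have := mul_le_of_le_one_left (norm_nonneg (σ (orb β x hx n))) hσ
    linarith

theorem orb_bd' (β x : ℝ) (hβ : 1 < β) (hx : x ∈ adjoin ℚ ({β} : Set ℝ)) (h0 : 0 ≤ x) (h1 : x < 1)
    (σ : (adjoin ℚ ({β} : Set ℝ)) →ₐ[ℚ] ℂ) (hσ : σ (AdjoinSimple.gen ℚ β) = (β : ℂ)⁻¹)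
    (M : ℝ) (hM0 : ‖σ (orb β x hx 0)‖ ≤ M) (hM : β⁻¹ * M + β ≤ M) (n : ℕ) :
    ‖σ (orb β x hx n)‖ ≤ M := by
  induction n with
  | zero => exact hM0
  | succ n ih =>
    have e : σ (orb β x hx (n + 1)) = σ (AdjoinSimple.gen ℚ β) * σ (orb β x hx n) -
        (dig β x n : ℂ) := by simp [orb]
    obtain ⟨a, b⟩ := dig_bd β x hβ h0 h1 n
    have hd : ‖(dig β x n : ℂ)‖ ≤ β := by
      rw [Complex.norm_intCast, abs_of_nonneg (by exact_mod_cast a)]; exact b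
    rw [e]
    refine (norm_sub_le _ _).trans ?_
    rw [norm_mul, hσ, norm_inv, Complex.norm_real, Real.norm_of_nonneg (by linarith)]
    have := mul_le_mul_of_nonneg_left ih (inv_nonneg.2 (by linarith : (0 : ℝ) ≤ β))
    linarith

theorem main (β : ℝ) (hint : IsIntegral ℤ β) (hβ : 1 < β)
    (hc : ∀ z ∈ (minpoly ℚ β).aroots ℂ, z ≠ (β : ℂ) → ‖z‖ ≤ 1)
    (hs : ∃ z ∈ (minpoly ℚ β).aroots ℂ, ‖z‖ = 1)
    (x : ℝ) (hx : x ∈ adjoin ℚ ({β} : Set ℝ)) (h0 : 0 ≤ x) (h1 : x < 1) :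
    (∃ m n : ℕ, 0 < n ∧ (fun y : ℝ => Int.fract (β * y))^[m + n] x =
      (fun y : ℝ => Int.fract (β * y))^[m] x) ∨
    ∃ c : ℝ, 0 < c ∧ ∀ l : ℕ,
      c * β ^ ((l : ℝ) / ((minpoly ℚ β).natDegree - 2)) ≤ ((blocks β x l).ncard : ℝ) := by
  by_cases hper : ∃ m n : ℕ, 0 < n ∧ (fun y : ℝ => Int.fract (β * y))^[m + n] x =
      (fun y : ℝ => Int.fract (β * y))^[m] x
  · exact Or.inl hper
  right
  classical
  have hQ : IsIntegral ℚ β := hint.tower_top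
  have hfin : FiniteDimensional ℚ (adjoin ℚ ({β} : Set ℝ)) := adjoin.finiteDimensional hQ
  obtain ⟨α, hα, hα1⟩ := hs
  have hinv := inv_root hQ α hα hα1
  set K := adjoin ℚ ({β} : Set ℝ) with hK
  set σ1 : K →ₐ[ℚ] ℂ := (algHomAdjoinIntegralEquiv ℚ hQ).symm ⟨(β : ℂ)⁻¹, hinv⟩ with hσ1
  set σ2 : K →ₐ[ℚ] ℂ := (algHomAdjoinIntegralEquiv ℚ hQ).symm ⟨α, hα⟩ with hσ2
  have e1 : σ1 (AdjoinSimple.gen ℚ β) = (β : ℂ)⁻¹ :=
    algHomAdjoinIntegralEquiv_symm_apply_gen ℚ hQ ⟨(β : ℂ)⁻¹, hinv⟩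
  have e2 : σ2 (AdjoinSimple.gen ℚ β) = α :=
    algHomAdjoinIntegralEquiv_symm_apply_gen ℚ hQ ⟨α, hα⟩
  have e0 : emb0 β (AdjoinSimple.gen ℚ β) = (β : ℂ) := rfl
  have hβ0 : (0 : ℝ) < β := by linarith
  have n0 : ‖(β : ℂ)‖ = β := by rw [Complex.norm_real, Real.norm_of_nonneg hβ0.le]
  have n1 : ‖(β : ℂ)⁻¹‖ < 1 := by rw [norm_inv, n0]; exact inv_lt_one_of_one_lt₀ hβ
  have ne01 : emb0 β ≠ σ1 := by
    intro h
    have := congrArg (fun s : K →ₐ[ℚ] ℂ => ‖s (AdjoinSimple.gen ℚ β)‖) h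
    simp only [e0, e1, n0] at this
    linarith
  have ne02 : emb0 β ≠ σ2 := by
    intro h
    have := congrArg (fun s : K →ₐ[ℚ] ℂ => ‖s (AdjoinSimple.gen ℚ β)‖) h
    simp only [e0, e2, n0, hα1] at this
    linarith
  have ne12 : σ1 ≠ σ2 := by
    intro h
    have := congrArg (fun s : K →ₐ[ℚ] ℂ => ‖s (AdjoinSimple.gen ℚ β)‖) h
    simp only [e1, e2, hα1] at this
    linarith
  have hcard : Fintype.card (K →ₐ[ℚ] ℂ) = (minpoly ℚ β).natDegree := by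
    rw [AlgHom.card]; exact adjoin.finrank hQ
  have hd3 : 3 ≤ (minpoly ℚ β).natDegree := by
    rw [← hcard]
    have : ({emb0 β, σ1, σ2} : Finset (K →ₐ[ℚ] ℂ)).card = 3 := by
      rw [Finset.card_insert_of_notMem (by simp [ne01, ne02]),
        Finset.card_insert_of_notMem (by simpa using ne12), Finset.card_singleton]
    rw [← this]
    exact Finset.card_le_univ _
  -- the denominator
  obtain ⟨q, hq0, hq⟩ : ∃ q : ℤ, q ≠ 0 ∧ IsIntegral ℤ (q • orb β x hx 0) := by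
    have halg : IsAlgebraic ℤ (orb β x hx 0) :=
      (IsFractionRing.isAlgebraic_iff ℤ ℚ K).2 (Algebra.IsAlgebraic.isAlgebraic _)
    obtain ⟨y, hy, hy'⟩ := halg.exists_integral_multiple
    exact ⟨y, hy, hy'⟩
  have hqn : (1 : ℝ) ≤ |(q : ℝ)| := by
    exact_mod_cast Int.one_le_abs hq0
  -- constants
  set A : ℝ := ∑ σ : K →ₐ[ℚ] ℂ, ‖σ (orb β x hx 0)‖ with hA
  have hA' : ∀ σ : K →ₐ[ℚ] ℂ, ‖σ (orb β x hx 0)‖ ≤ A := fun σ =>
    Finset.single_le_sum (f := fun σ : K →ₐ[ℚ] ℂ => ‖σ (orb β x hx 0)‖)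
      (fun _ _ => norm_nonneg _) (Finset.mem_univ σ)
  have hA0 : 0 ≤ A := Finset.sum_nonneg fun _ _ => norm_nonneg _
  set M : ℝ := A + β / (1 - β⁻¹) with hM
  have hβi : β⁻¹ < 1 := inv_lt_one_of_one_lt₀ hβ
  have hβi0 : 0 < β⁻¹ := inv_pos.2 hβ0
  have hM1 : β⁻¹ * M + β ≤ M := by
    have h2 : (1 - β⁻¹) * (β / (1 - β⁻¹)) = β := mul_div_cancel₀ _ (by linarith)
    have h3 : 0 ≤ (1 - β⁻¹) * A := mul_nonneg (by linarith) hA0
    rw [hM]
    nlinarith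
  have hM0 : 0 < M := by
    have : 0 < β / (1 - β⁻¹) := div_pos hβ0 (by linarith)
    linarith
  have hM2 : A ≤ M := by
    have : 0 < β / (1 - β⁻¹) := div_pos hβ0 (by linarith)
    linarith
  set D : ℕ := (minpoly ℚ β).natDegree - 2 with hD
  have hD1 : 1 ≤ D := by omega
  -- the key inequality
  have key : ∀ l m n N : ℕ, m < n → n ≤ N →
      (∀ i < l, dig β x (m + i) = dig β x (n + i)) →
      β ^ l ≤ (2 * |(q : ℝ)| ^ 2 * M) * (2 * |(q : ℝ)| * (A + N * β)) ^ D := by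
    intro l m n N hmn hnN hdig
    have hne : orb β x hx m ≠ orb β x hx n := by
      intro h
      apply hper
      refine ⟨m, n - m, by omega, ?_⟩
      rw [Nat.add_sub_cancel' hmn.le, ← orb_coe β x hx, ← orb_coe β x hx, h]
    set y : K := q • (orb β x hx m - orb β x hx n) with hy
    have hy0 : y ≠ 0 := by
      rw [hy]
      exact smul_ne_zero hq0 (sub_ne_zero.2 hne)
    have hyint : IsIntegral ℤ y := by
      rw [hy, smul_sub]
      exact (orb_int β x hx hint q hq m).sub (orb_int β x hx hint q hq n)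
    have hnorm : (1 : ℝ) ≤ ∏ σ : K →ₐ[ℚ] ℂ, ‖σ y‖ := by
      have h2 : IsIntegral ℤ (Algebra.norm ℚ y) := Algebra.isIntegral_norm ℚ hyint
      obtain ⟨z, hz⟩ := IsIntegrallyClosed.isIntegral_iff.1 h2
      have hz0 : z ≠ 0 := by
        rintro rfl
        rw [map_zero] at hz
        exact hy0 (Algebra.norm_eq_zero_iff.1 hz.symm)
      have h3 := Algebra.norm_eq_prod_embeddings ℚ ℂ y
      rw [← norm_prod, ← h3, ← hz]
      simp only [eq_intCast, map_intCast, Complex.norm_intCast]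
      exact_mod_cast Int.one_le_abs hz0
    have hσy : ∀ σ : K →ₐ[ℚ] ℂ, ‖σ y‖ = |(q : ℝ)| * ‖σ (orb β x hx m) - σ (orb β x hx n)‖ := by
      intro σ
      rw [hy, map_zsmul, map_sub, zsmul_eq_mul, norm_mul, Complex.norm_intCast]
    have b0 : ‖emb0 β y‖ ≤ |(q : ℝ)| * (β ^ l)⁻¹ := by
      rw [hσy]
      refine mul_le_mul_of_nonneg_left ?_ (abs_nonneg _)
      rw [emb0_apply, emb0_apply, ← Complex.ofReal_sub, Complex.norm_real, orb_coe, orb_coe,
        Real.norm_eq_abs]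
      exact close β x hβ h0 h1 l m n hdig
    have b1 : ‖σ1 y‖ ≤ |(q : ℝ)| * (2 * M) := by
      rw [hσy]
      refine mul_le_mul_of_nonneg_left ?_ (abs_nonneg _)
      refine (norm_sub_le _ _).trans ?_
      have h2 := orb_bd' β x hβ hx h0 h1 σ1 e1 M ((hA' σ1).trans hM2) hM1 m
      have h3 := orb_bd' β x hβ hx h0 h1 σ1 e1 M ((hA' σ1).trans hM2) hM1 n
      linarith
    have b2 : ∀ σ : K →ₐ[ℚ] ℂ, σ ≠ emb0 β → ‖σ y‖ ≤ 2 * |(q : ℝ)| * (A + N * β) := by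
      intro σ hσ
      have hσ1 : ‖σ (AdjoinSimple.gen ℚ β)‖ ≤ 1 := by
        apply hc _ (root_of hQ σ)
        intro h
        exact hσ (emb_inj hQ _ _ (by rw [h, e0]))
      rw [hσy]
      have h2 := orb_bd β x hβ hx h0 h1 σ hσ1 m
      have h3 := orb_bd β x hβ hx h0 h1 σ hσ1 n
      have h4 := hA' σ
      have h5 : (m : ℝ) * β ≤ N * β :=
        mul_le_mul_of_nonneg_right (by exact_mod_cast (by omega : m ≤ N)) hβ0.le
      have h6 : (n : ℝ) * β ≤ N * β :=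
        mul_le_mul_of_nonneg_right (by exact_mod_cast hnN) hβ0.le
      have h7 := norm_sub_le (σ (orb β x hx m)) (σ (orb β x hx n))
      have h8 : ‖σ (orb β x hx m) - σ (orb β x hx n)‖ ≤ 2 * (A + N * β) := by linarith
      have := mul_le_mul_of_nonneg_left h8 (abs_nonneg (q : ℝ))
      linarith
    rw [← Finset.mul_prod_erase Finset.univ _ (Finset.mem_univ (emb0 β)),
      ← Finset.mul_prod_erase (Finset.univ.erase (emb0 β)) _
        (Finset.mem_erase.2 ⟨ne01.symm, Finset.mem_univ σ1⟩)] at hnorm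
    have h2 : ∏ σ ∈ (Finset.univ.erase (emb0 β)).erase σ1, ‖σ y‖ ≤
        (2 * |(q : ℝ)| * (A + N * β)) ^ D := by
      have hcd : ((Finset.univ.erase (emb0 β)).erase σ1).card = D := by
        rw [Finset.card_erase_of_mem (Finset.mem_erase.2 ⟨ne01.symm, Finset.mem_univ σ1⟩),
          Finset.card_erase_of_mem (Finset.mem_univ _), Finset.card_univ, hcard]
        omega
      rw [← hcd, ← Finset.prod_const]
      refine Finset.prod_le_prod (fun _ _ => norm_nonneg _) fun σ hσ => ?_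
      exact b2 σ (Finset.ne_of_mem_erase (Finset.mem_of_mem_erase hσ))
    have hbpos : 0 < β ^ l := by positivity
    have h3 : (1 : ℝ) ≤ (|(q : ℝ)| * (β ^ l)⁻¹) * ((|(q : ℝ)| * (2 * M)) *
        (2 * |(q : ℝ)| * (A + N * β)) ^ D) := by
      refine hnorm.trans ?_
      gcongr
    calc β ^ l = β ^ l * 1 := (mul_one _).symm
      _ ≤ β ^ l * ((|(q : ℝ)| * (β ^ l)⁻¹) * ((|(q : ℝ)| * (2 * M)) *
        (2 * |(q : ℝ)| * (A + N * β)) ^ D)) := mul_le_mul_of_nonneg_left h3 hbpos.le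
      _ = _ := by field_simp
  -- conclusion
  set C : ℝ := 2 * |(q : ℝ)| ^ 2 * M with hC
  have hC0 : 0 < C := by positivity
  set E : ℝ := 2 * |(q : ℝ)| * (A + β) with hE
  have hE0 : 0 < E := by positivity
  have hDr : (0 : ℝ) < D := by exact_mod_cast hD1
  refine ⟨(C ^ ((1 : ℝ) / D) * E)⁻¹, by positivity, fun l => ?_⟩
  have hcast : ((minpoly ℚ β).natDegree : ℝ) - 2 = D := by
    rw [hD, Nat.cast_sub (by omega)]; norm_num
  rw [hcast]
  have hBf := blocks_fin β x hβ h0 h1 l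
  set p : ℕ := (blocks β x l).ncard with hp
  -- pigeonhole
  obtain ⟨m, hm, n, hn, hmn, hblk⟩ : ∃ m ∈ Finset.range (p + 1), ∃ n ∈ Finset.range (p + 1),
      m ≠ n ∧ (fun i : Fin l => dig β x (m + i)) = (fun i : Fin l => dig β x (n + i)) := by
    refine Finset.exists_ne_map_eq_of_card_lt_of_maps_to (t := hBf.toFinset) ?_ ?_
    · rw [Finset.card_range, ← Set.ncard_eq_toFinset_card _ hBf]
      exact Nat.lt_succ_self _
    · intro a _
      simp only [Set.Finite.coe_toFinset]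
      exact ⟨a, fun i => rfl⟩
  have hp1 : 1 ≤ p := by
    rw [Finset.mem_range] at hm hn
    omega
  have hineq : β ^ l ≤ C * (2 * |(q : ℝ)| * (A + p * β)) ^ D := by
    rw [Finset.mem_range] at hm hn
    rcases lt_or_gt_of_ne hmn with h | h
    · exact key l m n p h (by omega) fun i hi => congrFun hblk ⟨i, hi⟩
    · exact key l n m p h (by omega) fun i hi => (congrFun hblk ⟨i, hi⟩).symm
  have hpr : (1 : ℝ) ≤ p := by exact_mod_cast hp1
  have hineq2 : β ^ l ≤ C * (E * p) ^ D := by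
    refine hineq.trans ?_
    have : 2 * |(q : ℝ)| * (A + p * β) ≤ E * p := by
      rw [hE]
      have h2 : A ≤ A * p := le_mul_of_one_le_right hA0 hpr
      have h3 : A + p * β ≤ (A + β) * p := by nlinarith
      calc 2 * |(q : ℝ)| * (A + p * β) ≤ 2 * |(q : ℝ)| * ((A + β) * p) := by gcongr
        _ = _ := by ring
    gcongr
  have hroot : β ^ ((l : ℝ) / D) ≤ C ^ ((1 : ℝ) / D) * (E * p) := by
    have h2 : (β ^ l) ^ ((1 : ℝ) / D) ≤ (C * (E * p) ^ D) ^ ((1 : ℝ) / D) :=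
      Real.rpow_le_rpow (by positivity) hineq2 (by positivity)
    rw [Real.mul_rpow hC0.le (by positivity), ← Real.rpow_natCast (E * p) D,
      ← Real.rpow_mul (by positivity), mul_one_div_cancel hDr.ne', Real.rpow_one,
      ← Real.rpow_natCast β l, ← Real.rpow_mul hβ0.le, mul_one_div] at h2
    exact h2
  rw [inv_mul_le_iff₀ (by positivity)]
  calc β ^ ((l : ℝ) / D) ≤ C ^ ((1 : ℝ) / D) * (E * p) := hroot
    _ = _ := by ring

end Pool.Agent.Lib_helper77.SAL
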